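import Mathlib

/-!
# Annihilators of generic forms of odd degree: the conjectured value of `τ` is wrong

For odd `d > 3`, every `n` with `3d + 1 ≤ n ≤ 4d` other than `(n, d) = (16, 5)`, and every generic
form `f` of degree `d` in `n` variables, the series `τ_{n,d}` has a positive coefficient in degree
`n - 2d`, where the conjecture predicts the coefficient `0`.
-/

namespace Pool.Agent.Results.MP_071b90_al.ExtraAnnihilator

open Module Set Set.powersetCard ExteriorAlgebra

/-! ### Definitions -/

/-- The exterior algebra of an `n`-dimensional vector space `K^n`. -/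
def Ext (K : Type*) [Field K] (n : ℕ) : Type _ := ExteriorAlgebra K (Fin n → K)

noncomputable instance (K : Type*) [Field K] (n : ℕ) : Ring (Ext K n) :=
  inferInstanceAs (Ring (ExteriorAlgebra K (Fin n → K)))

noncomputable instance (K : Type*) [Field K] (n : ℕ) : Algebra K (Ext K n) :=
  inferInstanceAs (Algebra K (ExteriorAlgebra K (Fin n → K)))

/-- The inclusion of `K^n` into its exterior algebra. -/
noncomputable def incl (K : Type*) [Field K] (n : ℕ) : (Fin n → K) →ₗ[K] Ext K n :=
  ExteriorAlgebra.ι K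

/-- The variable `x_i`, that is, the `i`-th standard basis vector. -/
noncomputable def x (K : Type*) [Field K] (n : ℕ) (i : Fin n) : Ext K n :=
  incl K n (Pi.single i 1)

/-- The exterior product `x_S` of the `x_i` with `i ∈ S`, in increasing order. -/
noncomputable def xS (K : Type*) [Field K] (n : ℕ) (S : Finset (Fin n)) : Ext K n :=
  ((S.sort (· ≤ ·)).map (x K n)).prod

/-- The degree `r` part of the exterior algebra. -/
noncomputable def deg (K : Type*) [Field K] (n r : ℕ) : Submodule K (Ext K n) :=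
  ⋀[K]^r (Fin n → K)

/-- `f` is a generic form of degree `d`: `f = ∑_{|S| = d} c_S x_S` where the coefficients `c_S`
are algebraically independent over `ℚ` (so pairwise distinct and outside `ℚ`). -/
def IsGenericForm (K : Type*) [Field K] [CharZero K] (n d : ℕ) (f : Ext K n) : Prop :=
  ∃ c : {S : Finset (Fin n) // S.card = d} → K,
    AlgebraicIndependent ℚ c ∧ f = ∑ S, c S • xS K n S.1

/-- The annihilator of `f`: all `g` with `g ∧ f = 0`. -/
noncomputable def ann {K : Type*} [Field K] {n : ℕ} (f : Ext K n) : Submodule K (Ext K n) :=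
  LinearMap.ker (LinearMap.mulRight K f)

/-- The (two-sided) principal ideal generated by `f`, as a subspace. -/
noncomputable def principal {K : Type*} [Field K] {n : ℕ} (f : Ext K n) : Submodule K (Ext K n) :=
  Submodule.span K {x | ∃ a b : Ext K n, x = a * f * b}

/-- The coefficient of `t^r` in the Hilbert series of the annihilator of `f`. -/
noncomputable def aCoeff {K : Type*} [Field K] {n : ℕ} (f : Ext K n) (r : ℕ) : ℤ :=
  (finrank K ↥(ann f ⊓ deg K n r) : ℤ)

/-- The coefficient of `t^r` in the Hilbert series of the principal ideal of `f`. -/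
noncomputable def pCoeff {K : Type*} [Field K] {n : ℕ} (f : Ext K n) (r : ℕ) : ℤ :=
  (finrank K ↥(principal f ⊓ deg K n r) : ℤ)

/-- The coefficient of `t^r` in `Δ_{n,d}(t)`. -/
def ΔCoeff (n d r : ℕ) : ℤ :=
  if n ≤ 2 * r + d ∧ r ≤ n then (n.choose r : ℤ) - (n.choose (r + d) : ℤ) else 0

/-- The coefficient of `t^r` in `τ_{n,d}(t)`, computed from the form `f` of degree `d`. -/
noncomputable def τCoeff {K : Type*} [Field K] {n : ℕ} (d : ℕ) (f : Ext K n) (r : ℕ) : ℤ :=
  aCoeff f r - max (pCoeff f r) (ΔCoeff n d r)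

open Classical in
/-- The coefficient of `t^r` in the conjectured value of `τ_{n,d}(t)`, for `d ≤ n`: it is `1` if
`r = v(v+1)/2`, `n - d = (v² + 5v)/2 - 1` and `d = 5 + 2vs` for some `v ≥ 1`, `s ≥ 0`, and `0`
otherwise. -/
noncomputable def predicted (n d r : ℕ) : ℤ :=
  if ∃ v s : ℕ, 1 ≤ v ∧ 2 * n + 2 = v ^ 2 + 5 * v + 2 * d ∧ d = 5 + 2 * v * s ∧
    2 * r = v * (v + 1) then 1 else 0

/-! ### Graded commutativity -/

section comm

variable {K : Type*} [Field K] {M : Type*} [AddCommGroup M] [Module K M]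

lemma ι_comm (x : M) (n : ℕ) (b : ExteriorAlgebra K M) (hb : b ∈ ⋀[K]^n M) :
    ι K x * b = (-1 : K) ^ n • (b * ι K x) := by
  induction hb using Submodule.pow_induction_on_left' with
  | algebraMap r => simp [Algebra.commutes]
  | add y z i _ _ hy hz => rw [mul_add, add_mul, smul_add, hy, hz]
  | mem_mul m hm i y _ ih =>
    obtain ⟨m, rfl⟩ := hm
    have h1 : ι K x * ι K m = - (ι K m * ι K x) := by
      rw [eq_neg_iff_add_eq_zero]; exact ι_add_mul_swap x m
    rw [← mul_assoc, h1, neg_mul, mul_assoc, ih, mul_smul_comm, pow_succ, mul_neg_one,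
      neg_smul, mul_assoc]

lemma comm_graded (m n : ℕ) (a b : ExteriorAlgebra K M) (ha : a ∈ ⋀[K]^m M)
    (hb : b ∈ ⋀[K]^n M) : a * b = (-1 : K) ^ (m * n) • (b * a) := by
  induction ha using Submodule.pow_induction_on_left' with
  | algebraMap r => simp [Algebra.commutes]
  | add y z i _ _ hy hz => rw [mul_add, add_mul, smul_add, hy, hz]
  | mem_mul x hx i y _ ih =>
    obtain ⟨x, rfl⟩ := hx
    rw [mul_assoc, ih, mul_smul_comm, ← mul_assoc, ι_comm x n b hb, smul_mul_assoc, smul_smul,
      mul_assoc, ← pow_add, Nat.succ_mul]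

lemma sq_zero [CharZero K] (d : ℕ) (hd : Odd d) (f : ExteriorAlgebra K M) (hf : f ∈ ⋀[K]^d M) :
    f * f = 0 := by
  have h := comm_graded d d f f hf hf
  rw [(hd.mul hd).neg_one_pow, neg_one_smul, eq_neg_iff_add_eq_zero, ← two_smul K] at h
  exact (smul_eq_zero.mp h).resolve_left two_ne_zero

end comm

/-! ### Auxiliary names for the exterior algebra used in the proofs -/

abbrev Ex (K : Type*) [Field K] (n : ℕ) : Type _ := ExteriorAlgebra K (Fin n → K)

abbrev dg (K : Type*) [Field K] (n r : ℕ) : Submodule K (Ex K n) := ⋀[K]^r (Fin n → K)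

noncomputable def xB (K : Type*) [Field K] (n : ℕ) (S : Finset (Fin n)) : Ex K n :=
  (Pi.basisFun K (Fin n)).ExteriorAlgebra S

def pr {K : Type*} [Field K] {n : ℕ} (f : Ex K n) : Submodule K (Ex K n) :=
  Submodule.span K {x | ∃ a b : Ex K n, x = a * f * b}

/-! ### The pairing into the top degree -/

section pairing

variable {K : Type*} [Field K] {n : ℕ}

lemma xB_mem (r : ℕ) (S : Finset (Fin n)) (hS : S.card = r) : xB K n S ∈ dg K n r := by
  have h := basis_eq_coe_basis (R := K) (Pi.basisFun K (Fin n)) (⟨S, hS⟩ : powersetCard (Fin n) r)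
  have h2 : xB K n S = ((Pi.basisFun K (Fin n)).exteriorPower r ⟨S, hS⟩ : Ex K n) := h
  rw [h2]
  exact Subtype.property _

lemma exists_mul_ne_zero (d e : ℕ) (hn : e + d = n) (f : Ex K n) (hf : f ∈ dg K n d)
    (hf0 : f ≠ 0) : ∃ h ∈ dg K n e, h * f ≠ 0 := by
  classical
  set b := Pi.basisFun K (Fin n) with hb
  set f' : ⋀[K]^d (Fin n → K) := ⟨f, hf⟩ with hf'
  have hf'0 : f' ≠ 0 := by
    intro h
    apply hf0
    have := congrArg Subtype.val h
    simpa [hf'] using this
  obtain ⟨S, hS⟩ : ∃ S, (b.exteriorPower d).repr f' S ≠ 0 := by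
    by_contra hcon
    push Not at hcon
    apply hf'0
    apply (b.exteriorPower d).repr.injective
    ext S
    simpa using hcon S
  have hScard : S.val.card = d := S.2
  have hTcard : (S.val)ᶜ.card = e := by
    rw [Finset.card_compl, Fintype.card_fin, hScard]; omega
  set T : powersetCard (Fin n) e := ⟨(S.val)ᶜ, hTcard⟩ with hT
  have hdis : Disjoint T.val S.val := by
    change Disjoint (S.val)ᶜ S.val
    exact disjoint_compl_left
  refine ⟨b.ExteriorAlgebra T.val, ?_, ?_⟩
  · exact xB_mem e T.val T.2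
  · have hsum : f = ∑ U, (b.exteriorPower d).repr f' U • b.ExteriorAlgebra U.val := by
      have h1 := (b.exteriorPower d).sum_repr f'
      have h2 := congrArg (Submodule.subtype (⋀[K]^d (Fin n → K))) h1
      rw [map_sum] at h2
      rw [show f = Submodule.subtype (⋀[K]^d (Fin n → K)) f' from rfl, ← h2]
      apply Finset.sum_congr rfl
      intro U _
      rw [map_smul, basis_eq_coe_basis]
      rfl
    have hprod : b.ExteriorAlgebra T.val * f =
        (b.exteriorPower d).repr f' S • (b.ExteriorAlgebra T.val * b.ExteriorAlgebra S.val) := by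
      conv_lhs => rw [hsum]
      rw [Finset.mul_sum, Finset.sum_eq_single S]
      · rw [mul_smul_comm]
      · intro U _ hU
        rw [mul_smul_comm, basis_mul_of_not_disjoint b T U, smul_zero]
        intro hd
        apply hU
        apply Subtype.ext
        have hsub : U.val ⊆ S.val := by
          intro i hi
          by_contra hiS
          have : i ∈ T.val := by
            change i ∈ (S.val)ᶜ
            simpa using hiS
          exact (Finset.disjoint_left.mp hd) this hi
        exact Finset.eq_of_subset_of_card_le hsub (by rw [hScard]; exact le_of_eq U.2.symm)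
      · intro h; exact absurd (Finset.mem_univ _) h
    rw [hprod, basis_mul_of_disjoint b T S hdis]
    intro h0
    rcases smul_eq_zero.mp h0 with h0 | h0
    · exact hS h0
    · have h1 : b.ExteriorAlgebra (disjUnion hdis).val = 0 := by
        rcases Int.units_eq_one_or (permOfDisjoint hdis).sign with h | h
        · rw [h] at h0
          simpa using h0
        · rw [h] at h0
          simpa using h0
      exact b.ExteriorAlgebra.ne_zero _ h1

end pairing

/-! ### Dimension counts -/

section dims

variable {K : Type*} [Field K] {n : ℕ}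

lemma finrank_dg (r : ℕ) : finrank K (dg K n r) = n.choose r := by
  rw [exteriorPower.finrank_eq]; simp

lemma mul_mem_dg {r d : ℕ} {g f : Ex K n} (hg : g ∈ dg K n r) (hf : f ∈ dg K n d) :
    g * f ∈ dg K n (r + d) :=
  SetLike.mul_mem_graded (A := fun i => dg K n i) hg hf

lemma ann_lower [CharZero K] (r d : ℕ) (hd : Odd d) (hn : n = r + 2 * d) (f : Ex K n)
    (hf : f ∈ dg K n d) (hf0 : f ≠ 0) :
    n.choose r + 1 ≤ finrank K ↥(LinearMap.ker (LinearMap.mulRight K f) ⊓ dg K n r) + n.choose (r + d) := by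
  set φ : dg K n r →ₗ[K] Ex K n := (LinearMap.mulRight K f).domRestrict (dg K n r) with hφ
  have h1 : finrank K (LinearMap.range φ) + finrank K (LinearMap.ker φ) = n.choose r := by
    rw [LinearMap.finrank_range_add_finrank_ker, finrank_dg]
  have h2 : finrank K (LinearMap.ker φ) = finrank K ↥(LinearMap.ker (LinearMap.mulRight K f) ⊓ dg K n r) := by
    have e1 : (LinearMap.ker φ).map (dg K n r).subtype = LinearMap.ker (LinearMap.mulRight K f) ⊓ dg K n r := by
      ext x
      simp only [Submodule.mem_map, LinearMap.mem_ker, Submodule.mem_inf, hφ]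
      constructor
      · rintro ⟨y, hy, rfl⟩
        exact ⟨hy, y.2⟩
      · rintro ⟨hx1, hx2⟩
        exact ⟨⟨x, hx2⟩, hx1, rfl⟩
    rw [← e1, Submodule.finrank_map_subtype_eq]
  obtain ⟨h, hh, hh0⟩ := exists_mul_ne_zero d (r + d) (by omega) f hf hf0
  have h3 : LinearMap.range φ ≤ LinearMap.ker (LinearMap.mulRight K f) ⊓ dg K n (r + d) := by
    rintro x ⟨g, rfl⟩
    refine ⟨?_, mul_mem_dg g.2 hf⟩
    change (g : Ex K n) * f * f = 0
    rw [mul_assoc, sq_zero d hd f hf, mul_zero]
  have h4 : LinearMap.ker (LinearMap.mulRight K f) ⊓ dg K n (r + d) < dg K n (r + d) := by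
    refine lt_of_le_of_ne inf_le_right ?_
    intro he
    apply hh0
    have : h ∈ LinearMap.ker (LinearMap.mulRight K f) ⊓ dg K n (r + d) := by rw [he]; exact hh
    exact this.1
  have h5 := Submodule.finrank_mono h3
  have h6 := Submodule.finrank_lt_finrank_of_lt h4
  rw [finrank_dg] at h6
  omega

lemma principal_le (d : ℕ) (f : Ex K n) (hf : f ∈ dg K n d) :
    pr f ≤ LinearMap.range (LinearMap.mulRight K f) := by
  refine Submodule.span_le.mpr ?_
  rintro x ⟨a, b, rfl⟩
  induction b using DirectSum.Decomposition.inductionOn (fun i => dg K n i) with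
  | zero => simp
  | @homogeneous i b =>
    refine ⟨(-1 : K) ^ (d * i) • (a * (b : Ex K n)), ?_⟩
    rw [mul_assoc a f, comm_graded d i f b hf b.2]
    simp [mul_assoc]
  | add b c hb hc =>
    rw [mul_add]
    exact Submodule.add_mem _ hb hc

lemma p_upper (r d : ℕ) (f : Ex K n) (hf : f ∈ dg K n d) (hdr : d ≤ r) :
    finrank K ↥(pr f ⊓ dg K n r) ≤ n.choose (r - d) := by
  have h1 : pr f ⊓ dg K n r ≤ (dg K n (r - d)).map (LinearMap.mulRight K f) := by
    rintro x ⟨hx1, hx2⟩
    obtain ⟨g, rfl⟩ := principal_le d f hf hx1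
    have h2 := DirectSum.coe_decompose_mul_of_right_mem_of_le (fun i => dg K n i) (a := g) hf hdr
    have h3 : (DirectSum.decompose (fun i => dg K n i) (g * f) r : Ex K n) = g * f :=
      DirectSum.decompose_of_mem_same (fun i => dg K n i) hx2
    refine ⟨_, Subtype.property (DirectSum.decompose (fun i => dg K n i) g (r - d)), ?_⟩
    rw [LinearMap.mulRight_apply, LinearMap.mulRight_apply, ← h2, h3]
  calc finrank K ↥(pr f ⊓ dg K n r)
      ≤ finrank K ↥((dg K n (r - d)).map (LinearMap.mulRight K f)) := Submodule.finrank_mono h1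
    _ ≤ finrank K ↥(dg K n (r - d)) := Submodule.finrank_map_le _ _
    _ = n.choose (r - d) := finrank_dg _

end dims

/-! ### Binomial coefficients -/

lemma choose_mono (n a b : ℕ) (hab : a ≤ b) (hb : 2 * b ≤ n) : n.choose a ≤ n.choose b := by
  induction b, hab using Nat.le_induction with
  | base => exact le_refl _
  | succ b _ ih =>
    exact (ih (by omega)).trans (Nat.choose_le_succ_of_lt_half_left (by omega))

lemma choose_ineq (n d : ℕ) (hd : 3 < d) (h1 : 3 * d + 1 ≤ n) (h2 : n ≤ 4 * d) :
    n.choose (n - 3 * d) + n.choose d ≤ n.choose (2 * d) := by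
  have e1 : n.choose (d + 1) * (d + 1) = n.choose d * (n - d) := Nat.choose_succ_right_eq n d
  have e2 : n.choose (d + 1) ≤ n.choose (2 * d) := by
    rw [← Nat.choose_symm (show 2 * d ≤ n by omega)]
    exact choose_mono n (d + 1) (n - 2 * d) (by omega) (by omega)
  refine le_trans ?_ e2
  rcases Nat.lt_or_ge n (3 * d + 2) with h3 | h3
  · have hn : n = 3 * d + 1 := by omega
    subst hn
    have e3 : (3 * d + 1).choose 2 ≤ (3 * d + 1).choose d :=
      choose_mono _ 2 d (by omega) (by omega)
    have e4 : (3 * d + 1).choose 2 * 2 = (3 * d + 1) * (3 * d) := by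
      have := Nat.choose_succ_right_eq (3 * d + 1) 1
      simpa using this
    have e5 : 3 * d + 1 - 3 * d = 1 := by omega
    have e6 : 3 * d + 1 - d = 2 * d + 1 := by omega
    rw [e5, Nat.choose_one_right]
    rw [e6] at e1
    have e7 : (3 * d + 1 + (3 * d + 1).choose d) * (d + 1) ≤
        (3 * d + 1).choose (d + 1) * (d + 1) := by
      rw [e1]
      nlinarith
    exact Nat.le_of_mul_le_mul_right e7 (by omega)
  · have e3 : n.choose (n - 3 * d) ≤ n.choose d := choose_mono n _ d (by omega) (by omega)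
    have e4 : (n.choose d * 2) * (d + 1) ≤ n.choose (d + 1) * (d + 1) := by
      rw [e1, mul_assoc]
      exact Nat.mul_le_mul_left _ (by omega)
    have e5 := Nat.le_of_mul_le_mul_right e4 (by omega)
    omega

lemma predicted_eq_zero (n d : ℕ) (h1 : 3 * d + 1 ≤ n) (h : ¬ (n = 16 ∧ d = 5)) :
    predicted n d (n - 2 * d) = 0 := by
  unfold predicted
  rw [if_neg]
  rintro ⟨v, s, hv, e1, e2, e3⟩
  have e4 : 2 * (n - 2 * d) = v ^ 2 + v := by rw [e3]; ring
  have e5 : d + 1 = 2 * v := by omega
  rcases Nat.eq_zero_or_pos s with rfl | hs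
  · have hd5 : d = 5 := by simpa using e2
    subst hd5
    have hv3 : v = 3 := by omega
    subst hv3
    apply h
    omega
  · have : v ≤ v * s := Nat.le_mul_of_pos_right v hs
    have : 2 * v * s = 2 * (v * s) := by ring
    omega

/-! ### The main estimate -/

lemma xS_eq (K : Type*) [Field K] (n : ℕ) (S : Finset (Fin n)) :
    (xS K n S : ExteriorAlgebra K (Fin n → K)) = xB K n S := by
  have h1 : xB K n S = (List.ofFn fun i : Fin S.card =>
      (x K n (S.orderEmbOfFin rfl i) : ExteriorAlgebra K (Fin n → K))).prod := by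
    unfold xB
    rw [basis_apply_ofCard (Pi.basisFun K (Fin n)) (rfl : S.card = S.card)]
    rw [ExteriorAlgebra.ιMulti_family, ιMulti_apply]
    congr 2
    ext i
    simp only [Function.comp_apply, Pi.basisFun_apply]
    rfl
  rw [h1]
  change ((S.sort (· ≤ ·)).map (x K n)).prod = (List.ofFn fun i : Fin S.card =>
      (x K n (S.orderEmbOfFin rfl i))).prod
  congr 1
  apply List.ext_getElem
  · simp
  · intro i h1 h2
    simp [Finset.orderEmbOfFin_apply]

lemma form_mem {K : Type*} [Field K] [CharZero K] {n d : ℕ} {f : Ex K n}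
    (c : {S : Finset (Fin n) // S.card = d} → K) (hf : f = ∑ S, c S • xB K n S.1) :
    f ∈ dg K n d := by
  subst hf
  exact Submodule.sum_mem _ fun S _ => Submodule.smul_mem _ _ (xB_mem d S.1 S.2)

lemma form_ne_zero {K : Type*} [Field K] [CharZero K] {n d : ℕ} (hdn : d ≤ n) {f : Ex K n}
    (c : {S : Finset (Fin n) // S.card = d} → K) (hf : f = ∑ S, c S • xB K n S.1)
    (hc : AlgebraicIndependent ℚ c) : f ≠ 0 := by
  classical
  subst hf
  intro h0
  obtain ⟨S, -, hS⟩ := Finset.exists_subset_card_eq (s := (Finset.univ : Finset (Fin n)))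
    (n := d) (by simpa using hdn)
  have h1 := congrArg (fun x => (Pi.basisFun K (Fin n)).ExteriorAlgebra.repr x S) h0
  simp only [map_sum, map_smul, xB, Basis.repr_self, map_zero, Finsupp.coe_zero, Pi.zero_apply,
    Finsupp.coe_finsetSum, Finset.sum_apply, Finsupp.smul_apply, smul_eq_mul] at h1
  rw [Finset.sum_eq_single (⟨S, hS⟩ : {S : Finset (Fin n) // S.card = d})] at h1
  · rw [Finsupp.single_eq_same, mul_one] at h1
    exact hc.ne_zero _ h1
  · intro T _ hT
    rw [Finsupp.single_eq_of_ne, mul_zero]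
    intro he
    exact hT (Subtype.ext he.symm)
  · intro h; exact absurd (Finset.mem_univ _) h

lemma generic_form {K : Type*} [Field K] [CharZero K] {n d : ℕ} (hdn : d ≤ n) {f : Ext K n}
    (hf : IsGenericForm K n d f) :
    (f : ExteriorAlgebra K (Fin n → K)) ∈ dg K n d ∧
      (f : ExteriorAlgebra K (Fin n → K)) ≠ 0 := by
  obtain ⟨c, hc, hf⟩ := hf
  have h1 : (f : ExteriorAlgebra K (Fin n → K)) = ∑ S, c S • xB K n S.1 := by
    have h2 : (fun S : {S : Finset (Fin n) // S.card = d} => c S • xS K n S.1) =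
        (fun S : {S : Finset (Fin n) // S.card = d} => c S • (xB K n S.1 : Ext K n)) := by
      funext S
      rw [show xS K n S.1 = (xB K n S.1 : Ext K n) from xS_eq K n S.1]
      rfl
    rw [hf, h2]
    rfl
  exact ⟨form_mem c h1, form_ne_zero hdn c h1 hc⟩

lemma τ_lower {K : Type*} [Field K] [CharZero K] (n d : ℕ) (hodd : Odd d) (hd : 3 < d)
    (h1 : 3 * d + 1 ≤ n) (h2 : n ≤ 4 * d) (f : Ext K n)
    (hf : (f : ExteriorAlgebra K (Fin n → K)) ∈ dg K n d)
    (hf0 : (f : ExteriorAlgebra K (Fin n → K)) ≠ 0) :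
    1 ≤ τCoeff d f (n - 2 * d) := by
  have ha : n.choose (n - 2 * d) + 1 ≤ finrank K ↥(ann f ⊓ deg K n (n - 2 * d)) +
      n.choose (n - 2 * d + d) := ann_lower (n - 2 * d) d hodd (by omega) f hf hf0
  have hp : finrank K ↥(principal f ⊓ deg K n (n - 2 * d)) ≤ n.choose (n - 2 * d - d) :=
    p_upper (n - 2 * d) d f hf (by omega)
  have hc := choose_ineq n d hd h1 h2
  have e1 : n - 2 * d - d = n - 3 * d := by omega
  have e2 : n.choose (n - 2 * d) = n.choose (2 * d) := Nat.choose_symm (by omega)
  have e3 : n - 2 * d + d = n - d := by omega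
  have e4 : n.choose (n - d) = n.choose d := Nat.choose_symm (by omega)
  rw [e1] at hp
  rw [e2, e3, e4] at ha
  have e5 : ΔCoeff n d (n - 2 * d) = (n.choose (2 * d) : ℤ) - (n.choose d : ℤ) := by
    unfold ΔCoeff
    rw [if_pos (by omega), e2, e3, e4]
  unfold τCoeff aCoeff pCoeff
  rw [e5]
  have e6 : max ((finrank K ↥(principal f ⊓ deg K n (n - 2 * d)) : ℕ) : ℤ)
      ((n.choose (2 * d) : ℤ) - (n.choose d : ℤ)) ≤
      (n.choose (2 * d) : ℤ) - (n.choose d : ℤ) := by
    refine max_le ?_ le_rfl
    omega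
  omega

/-! ### Generic forms exist -/

lemma exists_generic (n d : ℕ) : ∃ (K : Type) (_ : Field K) (_ : CharZero K) (f : Ext K n),
    IsGenericForm K n d f := by
  let P := MvPolynomial {S : Finset (Fin n) // S.card = d} ℚ
  let K := FractionRing P
  refine ⟨K, inferInstance, inferInstance, _, fun S => algebraMap P K (MvPolynomial.X S), ?_, rfl⟩
  have h1 := MvPolynomial.algebraicIndependent_X {S : Finset (Fin n) // S.card = d} ℚ
  exact h1.map' (f := (algebraMap P K).toRatAlgHom) (IsFractionRing.injective P K)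

/-! ### The result -/

/-- Let `d > 3` be odd and `3d + 1 ≤ n ≤ 4d`, with `(n, d) ≠ (16, 5)`. Then for every generic form
`f` of degree `d` in `n` variables over every field of characteristic `0` the coefficient of
`t^(n - 2d)` in `τ_{n,d}(t)` is at least `1`, whereas the conjectured coefficient is `0`; and such
generic forms exist. -/
theorem result (n d : ℕ) (hodd : Odd d) (hd : 3 < d) (h1 : 3 * d + 1 ≤ n) (h2 : n ≤ 4 * d)
    (h : ¬ (n = 16 ∧ d = 5)) :
    (∀ (K : Type*) [Field K] [CharZero K] (f : Ext K n), IsGenericForm K n d f →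
      1 ≤ τCoeff d f (n - 2 * d)) ∧
    predicted n d (n - 2 * d) = 0 ∧
    ∃ (K : Type) (_ : Field K) (_ : CharZero K) (f : Ext K n), IsGenericForm K n d f :=
  ⟨fun _ _ _ f hf => τ_lower n d hodd hd h1 h2 f (generic_form (by omega) hf).1
      (generic_form (by omega) hf).2,
    predicted_eq_zero n d h1 h, exists_generic n d⟩

end Pool.Agent.Results.MP_071b90_al.ExtraAnnihilator
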